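import Pool.Agent.Q49.WU.Facts
import Pool.Agent.Q193.LT.Sub

/-!
# Hodge classes and Tate classes in one codimension over all number fields, and cubics over `ℚ`

Let `ℓ` be a prime number, and let `M` be the category of motives over `ℚ` for absolute Hodge cycles (or for
motivated cycles), a semisimple abelian category with Tate twists `N ↦ N(a)`. For a separated scheme `X`
of finite type over `ℚ` and integers `N`, `n` let `D.H N n X = Gr^W_{2N} H^n_c(X)`, the part of weight `2N`
of the cohomology with compact supports; for smooth projective `X` it is `h^n(X)` if `n = 2N` and zero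
otherwise.

Let `ω` be the `ℓ`-adic realization (the étale cohomology over the algebraic closure, identified with
`H_Betti ⊗ ℚ_ℓ` by the comparison isomorphism). For a motive `P` let `Hg.V P ⊆ ω(P)` be the `ℚ_ℓ`-span of
the Hodge classes of type `(0, 0)` and `Tt.V P ⊆ ω(P)` the space of the Tate classes (the vectors fixed by
a subgroup of finite index of the Galois group). These are functorial subspaces; both are zero for motives
of weight `≠ 0`. `SameAt D Hg Tt N X` says that the two subspaces are equal for all Tate twists of the
motives `D.H N n X`, `n ∈ ℤ` (only the twist by `N` matters).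

Let `K` be a number field with an embedding `σ : K → ℂ`. For a smooth projective scheme `Y` over `K` and
`j ≥ 0` let `C.V K σ j Y` be `H^{2j}_et(Y_K̄, ℚ_ℓ(j))`, with the span `C.hodge` of the Hodge classes and the
space `C.tate` of the Tate classes. Question Q1 (for `ℓ`) says that the two subspaces are equal, for all
`K`, `σ`, `Y` and `j`: the powers `Y^k` are again smooth projective schemes.

`Describes` lists what is used: for `K = ℚ` the two subspaces are those of the motive `h^{2j}(Y)(j)`. For
every `K` and every `Y` over `K` let `res K Y` be `Y` regarded as a scheme over `ℚ`. It is smooth and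
projective, and its cohomology is the direct sum of the cohomology of the conjugates of `Y` under the
embeddings of `K`, compatibly with the Hodge structures and with the action of the Galois group of the
normal closure of `K`; so the statement for `res K Y` implies the one for `Y`.

**Theorem.** (1) For every `j`, the Hodge classes span the Tate classes in `H^{2j}(j)` for all smooth
projective schemes over all number fields if and only if the Hodge classes span the Tate classes of
`Gr^W_{2(j+a-1)} H^n_c(X_H)(j+a-1)` for all `n`, all `a` and all finite sets `H` of triples `(i, r, s)` with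
`1 ≤ i ≤ a`, where `X_H` is the smooth affine cubic hypersurface `∑_{(i, r, s) ∈ H} x_i y_r z_s = 1` over
`ℚ`. The first open case is `j = 1`, which is about the parts of weight `2a`.

(2) For the hypersurfaces `T(x, y, z) = 1` of all rational trilinear forms `T` in `a` variables `x` (and
any numbers of variables `y` and `z`) the Hodge classes span the Tate classes of
`Gr^W_{2m} H^n_c(T = 1)(m)` for `m < a`.
-/

set_option autoImplicit false

open CategoryTheory CategoryTheory.Limits AlgebraicGeometry Pool.Agent.Y116.UV Pool.Agent.Z125.UN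
  Pool.Agent.Q193.LT Pool.Agent.Q49.WU

universe w w' v u

namespace Pool.Agent.Results.MP_6c781a_ag.CodimensionByCodimension

/-- The scheme `Y` over `K`, regarded as a scheme over `ℚ`. -/
noncomputable def res (K : Type) [Field K] [NumberField K] (Y : Sch K) : Sch ℚ :=
  (Over.map (Spec.map (CommRingCat.ofHom (algebraMap ℚ K)))).obj Y

/-- The cohomology groups, the spans of the Hodge classes and the spaces of the Tate classes. -/
structure Classes (ℓ : ℕ) [Fact ℓ.Prime] where
  /-- the group `H^{2j}(Y, ℚ_ℓ(j))` over an algebraic closure -/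
  V : ∀ (K : Type) [Field K] [NumberField K] (_ : K →+* ℂ), ℕ → Sch K → ModuleCat.{w'} ℚ_[ℓ]
  /-- the span of the Hodge classes -/
  hodge : ∀ (K : Type) [Field K] [NumberField K] (σ : K →+* ℂ) (j : ℕ) (Y : Sch K),
    Submodule ℚ_[ℓ] (V K σ j Y)
  /-- the Tate classes -/
  tate : ∀ (K : Type) [Field K] [NumberField K] (σ : K →+* ℂ) (j : ℕ) (Y : Sch K),
    Submodule ℚ_[ℓ] (V K σ j Y)

variable {ℓ : ℕ} [Fact ℓ.Prime]

/-- The Hodge classes of codimension `j` on `Y` span the Tate classes. -/
def Equal (C : Classes.{w'} ℓ) (K : Type) [Field K] [NumberField K] (σ : K →+* ℂ) (j : ℕ)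
    (Y : Sch K) : Prop :=
  C.hodge K σ j Y = C.tate K σ j Y

/-- Question Q1 in codimension `j`, for all number fields. -/
def AllFields (C : Classes.{w'} ℓ) (j : ℕ) : Prop :=
  ∀ (K : Type) [Field K] [NumberField K] (σ : K →+* ℂ) (Y : Sch K), SmoothProj Y → Equal C K σ j Y

variable {M : Type u} [Category.{v} M] [Abelian M]

/-- The two subspaces are equal for all Tate twists of the motives `D.H N n X`. -/
def SameAt (D : WeightData ℚ M) {ω : M ⥤ ModuleCat.{w} ℚ_[ℓ]} (Hg Tt : SubFunctor ω) (N : ℤ)
    (X : Sch ℚ) : Prop :=
  ∀ n b : ℤ, Hg.V ((D.tw b).obj (D.H N n X)) = Tt.V ((D.tw b).obj (D.H N n X))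

/-- What is used about the Hodge classes and the Tate classes: the description by motives over `ℚ`, and
the passage from `Y` to `res K Y`. -/
structure Describes (C : Classes.{w'} ℓ) (D : WeightData ℚ M) {ω : M ⥤ ModuleCat.{w} ℚ_[ℓ]}
    (Hg Tt : SubFunctor ω) : Prop where
  rational : ∀ (σ : ℚ →+* ℂ) (j : ℕ) (Y : Sch ℚ), SmoothProj Y →
    (Equal C ℚ σ j Y ↔ SameAt D Hg Tt j Y)
  smoothProj : ∀ (K : Type) [Field K] [NumberField K] (Y : Sch K), SmoothProj Y →
    SmoothProj (res K Y)
  restrict : ∀ (K : Type) [Field K] [NumberField K] (σ : K →+* ℂ) (τ : ℚ →+* ℂ) (j : ℕ) (Y : Sch K),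
    SmoothProj Y → Equal C ℚ τ j (res K Y) → Equal C K σ j Y

/-- **Hodge classes and Tate classes, one codimension at a time.** See the explanations above. The known
cases that are used are the point and the indices `N ≤ 0` (the cohomology in degree `0`). -/
theorem result {C : Classes.{w'} ℓ} {D : WeightData ℚ M} (h : IsWMotives D)
    {ω : M ⥤ ModuleCat.{w} ℚ_[ℓ]} [ω.Additive] {Hg Tt : SubFunctor ω} (hC : Describes C D Hg Tt)
    (point : ∀ N, SameAt D Hg Tt N (aff ℚ ℚ))
    (trivial : ∀ N : ℤ, N ≤ 0 → ∀ Y : Sch ℚ, SmoothProj Y → SameAt D Hg Tt N Y) :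
    (∀ j : ℕ, AllFields C j ↔ ∀ (a b c : ℕ) (H : Finset (Fin a × Fin b × Fin c)),
      SameAt D Hg Tt (j + (a - 1)) (tripS ℚ H)) ∧
    ∀ (a b c : ℕ) (T : Fin a → Fin b → Fin c → ℚ) (m : ℤ), m < a → SameAt D Hg Tt m (hypS T) := by
  have hS : TwSerre D (SameSub (zeroData D) Hg Tt) :=
    twSerre_of_zero (sameSub_serre (zero_compact h.weight) h.semisimple Hg Tt)
  refine ⟨fun j => Iff.trans ?_ (sp_weight_graph h.weight h.generated hS point frac_rat j),
    fun a b c T m hm => ?_⟩
  · constructor
    · intro g Y hY
      exact (hC.rational (algebraMap ℚ ℂ) j Y hY).mp (g ℚ _ Y hY)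
    · intro g K _ _ σ Y hY
      have h1 := hC.smoothProj K Y hY
      exact hC.restrict K σ (algebraMap ℚ ℂ) j Y hY ((hC.rational _ j _ h1).mpr (g _ h1))
  · have h2 := (sp_weight_iff h.weight h.generated hS point (m - (a - 1))).mp
      (trivial _ (by omega)) a b c T
    rwa [sub_add_cancel] at h2

end Pool.Agent.Results.MP_6c781a_ag.CodimensionByCodimension
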