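import Pool.Agent.Q193.LT.Sub

/-!
# Hodge classes and Tate classes on the cubic hypersurfaces `T(x, y, z) = 1`

Let `L` be a number field in `ℂ` and `ℓ` a prime number. Let `M` be the category of motives over `L` for
absolute Hodge cycles (or for motivated cycles), a semisimple abelian category with Tate twists
`N ↦ N(a)`. For a separated scheme `X` of finite type over `L` let `D.H i X` be the object of `M` given
by the graded object of the weight filtration of the cohomology with compact supports `H^i_c(X)`; for
smooth projective `X` it is the motive `h^i(X)`.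

Let `ω` be the `ℓ`-adic realization (the étale cohomology over the algebraic closure of `L`, identified
with `H_Betti ⊗ ℚ_ℓ` by the comparison isomorphism). For a motive `N` let `Hg.V N ⊆ ω(N)` be the
`ℚ_ℓ`-span of the Hodge classes of type `(0, 0)` and `Tt.V N ⊆ ω(N)` the space of the Tate classes (the
vectors fixed by a subgroup of finite index of the Galois group of `L`). These are functorial subspaces;
both are zero for motives of weight `≠ 0`. `SameSub D Hg Tt N` says that the two subspaces are equal for
all Tate twists `N(a)`; for `N = h^i(Y)` this is the statement of question Q1 for `Y` if `i = 2j`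
(take `a = j`), and nothing for odd `i`.

For a trilinear form `T(x, y, z) = ∑ t_{ijl} x_i y_j z_l` with coefficients in `L`, in any numbers of
variables `x_1, …, x_a`, `y_1, …, y_b`, `z_1, …, z_c`, the affine cubic hypersurface `T(x, y, z) = 1` is
smooth over `L`. For a finite set `H` of triples let `X_H` be the hypersurface
`∑_{(i, j, l) ∈ H} x_i y_j z_l = 1` over `ℚ`.

**Theorem.** (1) Question Q1 has a positive answer for all smooth projective varieties over `L` if and
only if for the hypersurfaces `T(x, y, z) = 1` of all trilinear forms `T` over `L` and all `i` and `a` the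
Hodge classes of `Gr^W H^i_c(T = 1)(a)` span the Tate classes. For `L = ℚ` it is enough to consider the
hypersurfaces `X_H`.

(2) For all `n`, Q1 has a positive answer for all smooth projective varieties of dimension at most `n`
over `L` if and only if this is true for the hypersurfaces `T(x, y, z) = 1` such that one of the three
blocks of variables has at most `n + 2` variables (the other two blocks are arbitrary).

(3) Unconditionally, it is true for the hypersurfaces `T(x, y, z) = 1` such that one of the three blocks
of variables has at most three variables.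
-/

set_option autoImplicit false

open CategoryTheory CategoryTheory.Limits AlgebraicGeometry Pool.Agent.Y116.UV Pool.Agent.Z125.UN
  Pool.Agent.Q193.LT

universe w v u

namespace Pool.Agent.Results.MP_6c781a_ag.HodgeTateCubics

variable {L : Type} [Field L] {M : Type u} [Category.{v} M] [Abelian M]

/-- The Hodge classes span the Tate classes for all smooth projective schemes of dimension at most
`n`. -/
def Proj (D : CompactData L M) {ℓ : ℕ} [Fact ℓ.Prime] {ω : M ⥤ ModuleCat.{w} ℚ_[ℓ]}
    (Hg Tt : SubFunctor ω) (n : ℕ) : Prop :=
  ∀ Y : Sch L, SmoothProj Y → topologicalKrullDim Y.left ≤ n → ∀ i, SameSub D Hg Tt (D.H i Y)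

/-- The Hodge classes span the Tate classes for all hypersurfaces `T = 1` with a block of at most `m`
variables. -/
def Forms (D : CompactData L M) {ℓ : ℕ} [Fact ℓ.Prime] {ω : M ⥤ ModuleCat.{w} ℚ_[ℓ]}
    (Hg Tt : SubFunctor ω) (m : ℕ) : Prop :=
  ∀ (a b c : ℕ) (T : Fin a → Fin b → Fin c → L), (a ≤ m ∨ b ≤ m ∨ c ≤ m) →
    ∀ i, SameSub D Hg Tt (D.H i (hypS T))

/-- **Hodge classes, Tate classes and cubic hypersurfaces.** See the explanations above. The known case
that is used for the third part is the case of curves (there the classes in question are algebraic). -/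
theorem result [NumberField L] {D : CompactData L M} (h : IsMotives D) {ℓ : ℕ} [Fact ℓ.Prime]
    {ω : M ⥤ ModuleCat.{w} ℚ_[ℓ]} [ω.Additive] {Hg Tt : SubFunctor ω}
    (point : ∀ i, SameSub D Hg Tt (D.H i (aff L L))) (curves : Proj D Hg Tt 1) :
    ((∀ Y : Sch L, SmoothProj Y → ∀ i, SameSub D Hg Tt (D.H i Y)) ↔
      ∀ (a b c : ℕ) (T : Fin a → Fin b → Fin c → L), ∀ i, SameSub D Hg Tt (D.H i (hypS T))) ∧
    (Frac L → ((∀ Y : Sch L, SmoothProj Y → ∀ i, SameSub D Hg Tt (D.H i Y)) ↔
      ∀ (a b c : ℕ) (H : Finset (Fin a × Fin b × Fin c)), ∀ i,
        SameSub D Hg Tt (D.H i (tripS L H)))) ∧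
    (∀ n : ℕ, Proj D Hg Tt n ↔ Forms D Hg Tt (n + 2)) ∧ Forms D Hg Tt 3 := by
  have hS := sameSub_serre h.compact h.semisimple Hg Tt
  exact ⟨proj_all_iff h.compact h.generated hS point,
    fun hk => proj_graph_iff hk h.compact h.generated hS point,
    fun n => proj_iff h.compact h.generated hS point n,
    (proj_iff h.compact h.generated hS point 1).mp curves⟩

end Pool.Agent.Results.MP_6c781a_ag.HodgeTateCubics
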