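import Pool.Agent.Q69.MTQ.Fin

/-!
# One Tate class of degree four decides the Mumford-Tate conjecture of an abelian variety

Let `A` be an abelian variety over a number field `L` embedded in the complex numbers (there is no
condition on the dimension, the endomorphisms or the reduction of `A`), and `ℓ` a prime number.
There is ONE class `Θ` in `(H^1(A, ℚ_ℓ) ^ {⊗ 4}) (2)`, a subspace of `H^4(A ^ 4, ℚ_ℓ(2))`, fixed by
the whole Galois group `Γ` of `L`, such that the following are equivalent:

* `Θ` is a linear combination of Hodge classes;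
* all classes in `(H^1(A, ℚ_ℓ) ^ {⊗ 4}) (2)` which are fixed by `Γ` are linear combinations of Hodge
  classes;
* the Mumford-Tate conjecture for `A` and all its powers: all Tate classes in all the spaces
  `(H^1) ^ {⊗ 2 m} (m)` (the cohomology of the powers of `A` consists of direct summands of these) are
  linear combinations of Hodge classes.

Method: let `𝔤` be the Lie algebra of the endomorphisms of `V = V_ℓ(A)` which kill all Tate classes.
The logarithms of the elements of an open subgroup of `Γ`, corrected by scalars, are in `𝔤` (proved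
here with powers `S ^ (ℓ ^ k)` and compactness); with the theorem of Faltings this shows that the
commutant of `𝔤` is `End(A) ⊗ ℚ_ℓ` and that `𝔤` acts semisimply; with the theorem on centres and the
positivity of the Rosati involution it follows that the trace form on `𝔤` is nondegenerate, and `Θ`
is the form given by the Casimir element of `𝔤`.  An endomorphism killing `Θ` commutes with `𝔤` up to
an element of `𝔤`.  The algebraic part is in the starting files `Pool/Agent/W516`, where the
`ℓ`-adic part, the semisimplicity and the positivity were missing.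

In the Lean statement `W` is `H_1(A, ℚ)`, `T` the tangent space at the origin and `per : W → T` the
inclusion, `ω₀` is a Riemann form (polarization); `ℚ_ℓ ⊗ W` is the rational Tate module with the
action `ρ` of the compact group `Γ` and the Weil pairing `ω`; `χ` is the cyclotomic character.  The
hypotheses `hss`, `hF` are the theorems of Faltings, `hD` is the theorem of Deligne (Hodge classes are
Tate classes) and `hC` the theorem on centres (the Mumford-Tate conjecture is true for the centres;
Vasiu, Ullmo-Yafaev).
-/

set_option autoImplicit false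

namespace Pool.Agent.Results.MP_6c781a_ag.OneQuarticClass

open TensorProduct Pool.Agent.W516.MTD Pool.Agent.Q69.MTQ

/-- **The Mumford-Tate conjecture for an abelian variety is a statement about one class of degree
four, fixed by the Galois group.** -/
theorem result (ℓ : ℕ) [Fact ℓ.Prime]
    -- the complex torus `A(ℂ)` with a polarization
    {W T : Type} [AddCommGroup W] [Module ℚ W] [FiniteDimensional ℚ W] [AddCommGroup T]
    [Module ℂ T] (per : W →+ T) (hper : IsRationalStructure per)
    (ω₀ : W →ₗ[ℚ] W →ₗ[ℚ] ℚ) (hω₀ : IsRiemannForm per ω₀)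
    -- the Galois group, its action on the Tate module, the cyclotomic character, the Weil pairing
    {Γ : Type} [Group Γ] [TopologicalSpace Γ] [IsTopologicalGroup Γ] [CompactSpace Γ]
    (ρ : Representation ℚ_[ℓ] Γ (ℚ_[ℓ] ⊗[ℚ] W)) (hρ : ContinuousRep ρ)
    (χ : Γ →* ℚ_[ℓ]) (hχ : Continuous χ)
    (ω : ℚ_[ℓ] ⊗[ℚ] W →ₗ[ℚ_[ℓ]] ℚ_[ℓ] ⊗[ℚ] W →ₗ[ℚ_[ℓ]] ℚ_[ℓ])
    (hωω : ∀ u v : W, ω ((1 : ℚ_[ℓ]) ⊗ₜ[ℚ] u) ((1 : ℚ_[ℓ]) ⊗ₜ[ℚ] v) = ((ω₀ u v : ℚ) : ℚ_[ℓ]))
    (hωρ : ∀ s u v, ω (ρ s u) (ρ s v) = χ s * ω u v)
    -- the theorems of Faltings and Deligne and the theorem on centres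
    (hss : Semisimple ρ) (hF : Faltings per ρ) (hD : Deligne per ρ χ) (hC : Centres per ρ χ) :
    ∃ Θ : Form ℚ_[ℓ] W 2, IsFixed ρ χ 2 Θ ∧
      List.TFAE [IsHodgeCombination per Θ,
        ∀ φ : Form ℚ_[ℓ] W 2, IsFixed ρ χ 2 φ → IsHodgeCombination per φ,
        MumfordTate per ρ χ] := by
  obtain ⟨Θ, h1, h2, -⟩ := one_class per ρ χ ω₀ ω hper hω₀ hωω hωρ hρ hχ hss hF hD hC
  exact ⟨Θ, h1, h2⟩

end Pool.Agent.Results.MP_6c781a_ag.OneQuarticClass
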