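import Pool.Agent.Y132.AH.MT

/-!
# The Mumford-Tate conjecture for the products with varieties of symplectic type

Let `W` be the cohomology of the smooth projective varieties over a number field (embedded into the complex numbers), with
coefficients in an algebraically closed field, with its rational Hodge structures (`HodgeData`, which define the Hodge
classes) and the action of the Galois group `Γ` (`GaloisData`, which defines the Tate classes), which are related by the
comparison isomorphism of Artin: both are structures on the same cohomology algebras.

Let `X i` be any family of odd-dimensional varieties, which may be infinite, such that homological and numerical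
equivalence coincide on `X i`, the transcendental cohomology `T i` of `X i` is concentrated in the middle degree, and

* the Mumford-Tate group acts irreducibly on the Lie algebra of the skew operators on `T i` (it is the symplectic group up
  to scalars), and these representations are pairwise not isomorphic (`SpFamily`);
* the Galois group acts irreducibly on the skew operators on `T i` as well, some element has two eigenvalues on `T i`
  whose quotient is not a root of unity, and these representations are pairwise not isomorphic (`BigFamily`).

Let `Z` be **any** smooth projective variety. Nothing is assumed about its Hodge group or its Galois image.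

1. There is a finite set `B` of indices, with `∑_{i ∈ B} dim T i ≤ 2 dim H(Z)`, such that for all products `X(L) × Z` of
   `Z` and of any number of copies of the `X i` the Mumford-Tate conjecture for the classes on `X(L) × Z` is equivalent to
   the Mumford-Tate conjecture for the subproducts `X(L') × Z` with all factors `i ∈ B`, whose number is bounded in terms
   of the Betti numbers of `Z`.
2. If the Frobenius slopes of the `T i` and their Hodge types are separated from those of the generators of the
   cohomology of `Z` (for instance if `Z` is an abelian variety or a product of curves, and `T i` has Hodge types `(p, q)` with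
   `p - q > 1` and the corresponding slopes) then the Mumford-Tate conjecture for all powers of `X(L) × Z` is equivalent to
   the Mumford-Tate conjecture for all powers of `Z`, for all products `X(L)`.
-/

open CategoryTheory AlgebraicGeometry

universe u

namespace Pool.Agent.Results.MP_6c781a_ag.ProductsWithSymplecticType

open Pool.Agent.H914 Pool.Agent.H914.VarClass Pool.Agent.H914.VarClass.Obj
  Pool.Agent.H914.WeilCohomology Pool.Agent.Y132.AH

/-- **The Mumford-Tate conjecture for products with varieties of symplectic type.** -/
theorem result {k : Type u} [Field k] {𝒱 : VarClass k} {ops : CycleOps 𝒱}
    (W : WeilCohomology.{u, 0} ops) [IsAlgClosed W.K] {Γ : Type} [Group Γ] (G : GaloisData W Γ)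
    (Ψ : HodgeData W) {ι : Type} [DecidableEq ι] (X : ι → 𝒱.Obj) (hH : SpFamily Ψ X)
    (hG : BigFamily G X) (Z : 𝒱.Obj) :
    (∃ B : Finset ι, ∑ i ∈ B, trDim W (X i) ≤ 2 * totDim W Z ∧
      (∀ i ∈ B, ¬(SlopeSep G (X i) Z ∧ TypeSep Ψ (X i) Z)) ∧
      ∀ L : List ι, MumfordTate Ψ G (prodList X Z L) ↔
        ∀ L' : List ι, L'.Sublist L → SmallDim W X Z B L' →
          MumfordTate Ψ G (prodList X Z L')) ∧
    ((∀ i, SlopeSep G (X i) Z) → (∀ i, TypeSep Ψ (X i) Z) → ∀ L : List ι,
      (MumfordTateAll Ψ G (prodList X Z L) ↔ MumfordTateAll Ψ G Z)) :=
  ⟨mt_iff' G Ψ Z hH hG, fun h1 h2 L =>
    mt_all G Ψ Z hH (bigFamily_ad G (spFamily_odd Ψ hH) hG) h1 h2 L⟩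

end Pool.Agent.Results.MP_6c781a_ag.ProductsWithSymplecticType
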